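import Pool.Agent.Helper17.OD.GoalsFP

/-!
# Packet OD EIH: the induction step of the homogeneity isomorphism
-/

namespace Pool.Agent.Helper17.OD.PkEIH

open Set

/-- Transfer of membership in the new names. -/
theorem key (hpro : G_PRO) (F : FD) {p' q' : T} {i : O} (A : EiP F p' q' i) (B : EiP F q' p' i)
    {b : Set T} (hb : RegO (F.P i) (F.Le i) b) {s : T} (hs : s ∈ F.P i) (hsq : F.Le i s q') :
    s ∈ TrN F p' i (Ei F p' q' i) b ↔ Ei F q' p' i s ∈ b := by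
  obtain ⟨hrefl, htr, -, -, -⟩ := hpro F
  have tr : ∀ {a b c : T}, F.Le i a b → F.Le i b c → F.Le i a c := fun h h' => htr i _ _ _ h h'
  have h1 := B.mem s hs hsq
  constructor
  · rintro ⟨-, h⟩
    refine hb.2.2 _ h1.1 fun u hu huv => ?_
    have hup : F.Le i u p' := tr huv h1.2
    have h2 := A.mem u hu hup
    have h3 : F.Le i (Ei F p' q' i u) s :=
      tr (A.mono _ h1.1 u hu huv h1.2) (B.inv s hs hsq).1
    obtain ⟨s'', hs'', h4, v, hv, hvP, hvp, h5⟩ := h _ h2.1 h3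
    have h6 : F.Le i s'' q' := tr h4 h2.2
    have h7 := B.mem s'' hs'' h6
    refine ⟨_, h7.1, tr (B.mono _ h2.1 s'' hs'' h4 h2.2) (A.inv u hu hup).1, ?_⟩
    have h8 := A.mem v hvP hvp
    exact hb.2.1 v hv _ h7.1 (tr (B.mono _ h8.1 s'' hs'' h5 h8.2) (A.inv v hvP hvp).1)
  · intro h
    refine ⟨hs, fun s' hs' hss => ?_⟩
    have h2 : F.Le i s' q' := tr hss hsq
    have h3 := B.mem s' hs' h2
    exact ⟨s', hs', hrefl i s', _, hb.2.1 _ h _ h3.1 (B.mono s hs s' hs' hss hsq), h3.1, h3.2,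
      (B.inv s' hs' h2).2⟩

/-- The new names are regular open. -/
theorem tro (hpro : G_PRO) (F : FD) (p' : T) (i : O) (e : T → T) (b : Set T) :
    RegO (F.P i) (F.Le i) (TrN F p' i e b) := by
  obtain ⟨hrefl, htr, -, -, -⟩ := hpro F
  have tr : ∀ {a b c : T}, F.Le i a b → F.Le i b c → F.Le i a c := fun h h' => htr i _ _ _ h h'
  refine ⟨fun s hs => hs.1, fun r hr s hs hsr => ⟨hs, fun s' hs' h => hr.2 s' hs' (tr h hsr)⟩,
    fun r hr h => ⟨hr, fun s' hs' hss => ?_⟩⟩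
  obtain ⟨u, hu, hus, huT⟩ := h s' hs' hss
  obtain ⟨s'', h1, h2, h3⟩ := huT.2 u hu (hrefl i u)
  exact ⟨s'', h1, tr h2 hus, h3⟩

/-- The names of the image. -/
def NN (F : FD) (p' q' r : T) (i x : O) : Set T :=
  {s | (x < ln q' i ∧ s ∈ nm q' i x) ∨
    (ln q' i ≤ x ∧ s ∈ TrN F p' i (Ei F p' q' i) (nm r i x))}

theorem NN_lo (F : FD) (p' q' r : T) {i x : O} (h : x < ln q' i) :
    NN F p' q' r i x = nm q' i x := by
  ext s
  simp [NN, h, not_le.2 h]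

theorem NN_hi (F : FD) (p' q' r : T) {i x : O} (h : ln q' i ≤ x) :
    NN F p' q' r i x = TrN F p' i (Ei F p' q' i) (nm r i x) := by
  ext s
  simp [NN, h, not_lt.2 h]

theorem EiS_eq (F : FD) (p' q' : T) (j : O) (r : T) :
    EiS F p' q' (Ei F p' q') j r = {z : T | ∃ i < j, i < F.κ ∧ ∃ x < ln r i,
      z = .pr (.ord i) (.pr (.nat 0) (.ord x)) ∨
      ∃ s ∈ NN F p' q' r i x, z = .pr (.ord i) (.pr (.nat 1) (.pr (.ord x) s))} := by
  ext z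
  simp only [EiS, NN, mem_ofPred_eq]
  constructor
  · rintro ⟨i, hi, hk, x, hx, h | ⟨s, h, h'⟩⟩
    · exact ⟨i, hi, hk, x, hx, Or.inl h⟩
    · exact ⟨i, hi, hk, x, hx, Or.inr ⟨s, h', h⟩⟩
  · rintro ⟨i, hi, hk, x, hx, h | ⟨s, h, h'⟩⟩
    · exact ⟨i, hi, hk, x, hx, Or.inl h⟩
    · exact ⟨i, hi, hk, x, hx, Or.inr ⟨s, h', h⟩⟩

/-- Membership of a condition of length given by a tree. -/
def InP (F : FD) (ti s : T) : Prop := ∃ j ≤ F.κ, ti = .ord j ∧ s ∈ F.P j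

/-- The order for a length given by a tree. -/
def LeT (F : FD) (ti s t : T) : Prop :=
  ∃ j ≤ F.κ, ti = .ord j ∧ s ∈ D (Iio F.κ) ∧ t ∈ D (Iio F.κ) ∧ F.Le j s t

/-- The graph of the isomorphism. -/
def EiT (F : FD) (p' q' ti v y : T) : Prop :=
  ∃ j ≤ F.κ, ti = .ord j ∧ v ∈ F.P j ∧ F.Le j v p' ∧ Ei F p' q' j v = y

/-- The new name, with tree arguments. -/
def TrT (F : FD) (p' q' r ti tx s : T) : Prop :=
  InP F ti s ∧ ∀ s' ∈ D (Iio F.γ), InP F ti s' → LeT F ti s' s →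
    ∃ s'' ∈ D (Iio F.γ), InP F ti s'' ∧ LeT F ti s'' s' ∧
      ∃ v ∈ D (Iio F.γ), Tr.pr ti (.pr (.nat 1) (.pr tx v)) ∈ dec r ∧ InP F ti v ∧
        LeT F ti v p' ∧ ∃ y ∈ D (Iio F.γ), EiT F p' q' ti v y ∧ LeT F ti s'' y

/-- The image, with tree arguments. -/
def ImT (F : FD) (p' q' r : T) (j : O) (z : T) : Prop :=
  ∃ ti ∈ D (Iio F.γ), ∃ tx ∈ D (Iio F.γ), (ti.IsOrd ∧ ti.llt (.ord j)) ∧ LnT r ti tx ∧
    (z = .pr ti (.pr (.nat 0) tx) ∨
      ∃ s ∈ D (Iio F.γ), z = .pr ti (.pr (.nat 1) (.pr tx s)) ∧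
        ((LnT q' ti tx ∧ Tr.pr ti (.pr (.nat 1) (.pr tx s)) ∈ dec q') ∨
          (¬ LnT q' ti tx ∧ TrT F p' q' r ti tx s)))

theorem ImT_SD (hpim : G_PIM) (heim : G_EIM) (hlns : G_LNS) (hpbd : G_PBD) (F : FD)
    {p' q' : T} (hp : p' ∈ F.P F.κ) (hq : q' ∈ F.P F.κ) (hl : ∀ i < F.κ, ln p' i = ln q' i)
    {j : O} (hj : j ≤ F.κ) {r : T} (hr : r ∈ F.P j) :
    SD F.γ F.M F.M (fun e _ => ImT F p' q' r j e) := by
  have hM : SOM F.γ F.M F.M := F.g.m1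
  have hkg : Iio F.κ ⊆ Iio F.γ := Iio_subset_Iio F.g.kg.le
  obtain ⟨-, hlow, -, hdec, -⟩ := hpbd F
  have hpγ : p' ∈ D (Iio F.γ) := D_mono hkg (hlow _ hp)
  have hqγ : q' ∈ D (Iio F.γ) := D_mono hkg (hlow _ hq)
  have hrγ : r ∈ D (Iio F.γ) := D_mono hkg (hlow _ hr)
  have hdr : dec r ∈ F.M := (hdec _ _ hr).1
  have hdq : dec q' ∈ F.M := (hdec _ _ hq).1
  have hjγ : j < F.γ := lt_of_le_of_lt hj F.g.kg
  obtain ⟨h1, h2, -⟩ := hpim F
  have hInP : ∀ s t : T → T, ST F.γ s → ST F.γ t →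
      SD F.γ F.M F.M (fun e _ => InP F (s e) (t e)) := fun s t hs ht =>
    SD.app2 (R := InP F) h1 hs ht
  have hLe : ∀ s t u : T → T, ST F.γ s → ST F.γ t → ST F.γ u →
      SD F.γ F.M F.M (fun e _ => LeT F (s e) (t e) (u e)) := fun s t u hs ht hu =>
    SD.app3 (R := LeT F) h2 hs ht hu
  have hEi : ∀ s t u : T → T, ST F.γ s → ST F.γ t → ST F.γ u →
      SD F.γ F.M F.M (fun e _ => EiT F p' q' (s e) (t e) (u e)) := fun s t u hs ht hu =>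
    SD.app3 (R := EiT F p' q') (heim F p' hp q' hq hl) hs ht hu
  have hL : ∀ c ∈ D (Iio F.γ), ∀ s t : T → T, ST F.γ s → ST F.γ t →
      SD F.γ F.M F.M (fun e _ => LnT c (s e) (t e)) := fun c hc s t hs ht =>
    SD.app3 (R := LnT) (hlns F.γ F.M F.M hM) (ST.const hc) hs ht
  have hLr := hL r hrγ
  have hLq := hL q' hqγ
  have hcp : ST F.γ (fun _ => p') := ST.const hpγ
  have hcj : ST F.γ (fun _ => (Tr.ord j : T)) := ST.ordc hjγ
  have hTr0 : SD F.γ F.M F.M (fun e _ => TrT F p' q' r e.fst e.snd.fst e.snd.snd) := by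
    unfold TrT
    apply_rules (maxDepth := 1000) [hInP, hLe, hEi, SD.exT, SD.allT, SD.isOrd, SD.llt, SD.mem, SD.eq, SD.not,
      SD.and, SD.or, SD.imp, hcp, ST.id, ST.fst, ST.snd, ST.pr, ST.nat, SV.par]
  have hTr : ∀ s t u : T → T, ST F.γ s → ST F.γ t → ST F.γ u →
      SD F.γ F.M F.M (fun e _ => TrT F p' q' r (s e) (t e) (u e)) := fun s t u hs ht hu =>
    SD.app3 (R := TrT F p' q' r) hTr0 hs ht hu
  unfold ImT
  apply_rules (maxDepth := 1000) [hTr, hLr, hLq, SD.exT, SD.allT, SD.isOrd, SD.llt, SD.mem, SD.eq, SD.not, SD.and,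
    SD.or, SD.imp, ST.id, ST.fst, ST.snd, ST.pr, ST.nat, hcj, SV.par]

theorem InP_iff (F : FD) {i : O} (hi : i ≤ F.κ) (s : T) : InP F (.ord i) s ↔ s ∈ F.P i := by
  constructor
  · rintro ⟨i', -, h, hs⟩
    rw [Tr.ord.injEq] at h
    rw [h]
    exact hs
  · intro h
    exact ⟨i, hi, rfl, h⟩

theorem LeT_iff (F : FD) {i : O} (hi : i ≤ F.κ) {s t : T} (hs : s ∈ D (Iio F.κ))
    (ht : t ∈ D (Iio F.κ)) : LeT F (.ord i) s t ↔ F.Le i s t := by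
  constructor
  · rintro ⟨i', -, h, -, -, hs⟩
    rw [Tr.ord.injEq] at h
    rw [h]
    exact hs
  · intro h
    exact ⟨i, hi, rfl, hs, ht, h⟩

theorem EiT_iff (F : FD) (p' q' : T) {i : O} (hi : i ≤ F.κ) {v y : T} (hv : v ∈ F.P i)
    (hvp : F.Le i v p') : EiT F p' q' (.ord i) v y ↔ Ei F p' q' i v = y := by
  constructor
  · rintro ⟨i', -, h, -, -, hs⟩
    rw [Tr.ord.injEq] at h
    rw [h]
    exact hs
  · intro h
    exact ⟨i, hi, rfl, hv, hvp, h⟩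

theorem LnT_iff (c : T) (i x : O) : LnT c (.ord i) (.ord x) ↔ x < ln c i := by
  constructor
  · rintro ⟨i', x', h1, h2, h3⟩
    rw [Tr.ord.injEq] at h1 h2
    rw [h1, h2]
    exact h3
  · intro h
    exact ⟨i, x, rfl, rfl, h⟩

theorem TrT_iff (hpbd : G_PBD) (F : FD) {p' q' : T} (hp : p' ∈ F.P F.κ) {i : O} (hi : i < F.κ)
    (A : EiP F p' q' i) (r : T) (x : O) (s : T) :
    TrT F p' q' r (.ord i) (.ord x) s ↔ s ∈ TrN F p' i (Ei F p' q' i) (nm r i x) := by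
  obtain ⟨-, hlow, -⟩ := hpbd F
  have hkg : Iio F.κ ⊆ Iio F.γ := Iio_subset_Iio F.g.kg.le
  have hPg : ∀ {s : T}, s ∈ F.P i → s ∈ D (Iio F.γ) := fun hs => D_mono hkg (hlow i hs)
  constructor
  · rintro ⟨h0, h⟩
    rw [InP_iff F hi.le] at h0
    refine ⟨h0, fun s' hs' hss => ?_⟩
    obtain ⟨s'', -, h1, h2, v, -, hv, hvP, hvp, y, -, hy, h3⟩ := h s' (hPg hs')
      ((InP_iff F hi.le s').2 hs') ((LeT_iff F hi.le (hlow i hs') (hlow i h0)).2 hss)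
    rw [InP_iff F hi.le] at h1 hvP
    rw [LeT_iff F hi.le (hlow i h1) (hlow i hs')] at h2
    rw [LeT_iff F hi.le (hlow i hvP) (hlow _ hp)] at hvp
    rw [EiT_iff F p' q' hi.le hvP hvp] at hy
    subst hy
    rw [LeT_iff F hi.le (hlow i h1) (hlow i (A.mem v hvP hvp).1)] at h3
    exact ⟨s'', h1, h2, v, hv, hvP, hvp, h3⟩
  · rintro ⟨h0, h⟩
    refine ⟨(InP_iff F hi.le s).2 h0, fun s' _ hs' hss => ?_⟩
    rw [InP_iff F hi.le] at hs'
    rw [LeT_iff F hi.le (hlow i hs') (hlow i h0)] at hss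
    obtain ⟨s'', h1, h2, v, hv, hvP, hvp, h3⟩ := h s' hs' hss
    have h4 := (A.mem v hvP hvp).1
    exact ⟨s'', hPg h1, (InP_iff F hi.le s'').2 h1,
      (LeT_iff F hi.le (hlow i h1) (hlow i hs')).2 h2, v, hPg hvP, hv,
      (InP_iff F hi.le v).2 hvP, (LeT_iff F hi.le (hlow i hvP) (hlow _ hp)).2 hvp,
      _, hPg h4, (EiT_iff F p' q' hi.le hvP hvp).2 rfl,
      (LeT_iff F hi.le (hlow i h1) (hlow i h4)).2 h3⟩

/-- The image of a condition is in the ground model. -/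
theorem inM (hpim : G_PIM) (heim : G_EIM) (hlns : G_LNS) (hpbd : G_PBD) (hpun : G_PUN) (F : FD)
    {p' q' : T} (hp : p' ∈ F.P F.κ) (hq : q' ∈ F.P F.κ) (hl : ∀ i < F.κ, ln p' i = ln q' i)
    {j : O} (hj : j ≤ F.κ) (hA : ∀ i < j, EiP F p' q' i) {r : T} (hr : r ∈ F.P j) :
    EiS F p' q' (Ei F p' q') j r ∈ F.M := by
  have hM : SOM F.γ F.M F.M := F.g.m1
  have hlow := (hpbd F).2.1
  have hkg : Iio F.κ ⊆ Iio F.γ := Iio_subset_Iio F.g.kg.le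
  have hPg : ∀ {i : O} {s : T}, s ∈ F.P i → s ∈ D (Iio F.γ) := fun hs => D_mono hkg (hlow _ hs)
  have hcq := ((hpun F).2 F.κ q').1 hq
  have hcr := ((hpun F).2 j r).1 hr
  have hsub : ∀ i < j, ∀ x < ln r i, ∀ s, ((x < ln q' i ∧ s ∈ nm q' i x) ∨
      (ln q' i ≤ x ∧ s ∈ TrN F p' i (Ei F p' q' i) (nm r i x))) → s ∈ F.P i := by
    rintro i hi x hx s (⟨h1, h2⟩ | ⟨h1, h2⟩)
    · exact (hcq.ro i (lt_of_lt_of_le hi hj) (lt_of_lt_of_le hi hj) x h1).1 h2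
    · exact h2.1
  have hxk : ∀ i < j, ∀ x < ln r i, x < F.κ := fun i hi x hx =>
    (hx.trans (hcr.len i hi (lt_of_lt_of_le hi hj))).trans (F.e.lt i (lt_of_lt_of_le hi hj))
  have hiff : ∀ z, z ∈ EiS F p' q' (Ei F p' q') j r ↔ ImT F p' q' r j z := by
    intro z
    constructor
    · rintro ⟨i, hi, hik, x, hx, h⟩
      refine ⟨.ord i, ord_mem.2 (hik.trans F.g.kg), .ord x,
        ord_mem.2 ((hxk i hi x hx).trans F.g.kg), ⟨trivial, hi⟩, (LnT_iff r i x).2 hx, ?_⟩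
      rcases h with h | ⟨s, hz, h⟩
      · exact Or.inl h
      · refine Or.inr ⟨s, hPg (hsub i hi x hx s h), hz, ?_⟩
        rcases h with ⟨h1, h2⟩ | ⟨h1, h2⟩
        · exact Or.inl ⟨(LnT_iff q' i x).2 h1, h2⟩
        · refine Or.inr ⟨fun h => absurd ((LnT_iff q' i x).1 h) (not_lt.2 h1), ?_⟩
          exact (TrT_iff hpbd F hp hik (hA i hi) r x s).2 h2
    · rintro ⟨ti, -, tx, -, ⟨-, h1⟩, ⟨i, x, rfl, rfl, hx⟩, h⟩
      have hi : i < j := h1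
      have hik : i < F.κ := lt_of_lt_of_le hi hj
      refine ⟨i, hi, hik, x, hx, ?_⟩
      rcases h with h | ⟨s, -, hz, h⟩
      · exact Or.inl h
      · refine Or.inr ⟨s, hz, ?_⟩
        rcases h with ⟨h1, h2⟩ | ⟨h1, h2⟩
        · exact Or.inl ⟨(LnT_iff q' i x).1 h1, h2⟩
        · exact Or.inr ⟨not_lt.1 fun h => h1 ((LnT_iff q' i x).2 h),
            (TrT_iff hpbd F hp hik (hA i hi) r x s).1 h2⟩
  refine SOM.of_SD (S := F.M) F.g.kg ?_ ((ImT_SD hpim heim hlns hpbd F hp hq hl hj hr).congr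
    fun e _ _ _ => (hiff e).symm)
  rintro z ⟨i, hi, hik, x, hx, h⟩
  have hi' : (Tr.ord i : T) ∈ D (Iio F.κ) := ord_mem.2 hik
  have hx' : (Tr.ord x : T) ∈ D (Iio F.κ) := ord_mem.2 (hxk i hi x hx)
  rcases h with h | ⟨s, hz, h⟩
  · rw [h]
    exact pr_mem.2 ⟨hi', pr_mem.2 ⟨nat_mem _ _, hx'⟩⟩
  · rw [hz]
    exact pr_mem.2 ⟨hi', pr_mem.2 ⟨nat_mem _ _, pr_mem.2 ⟨hx', hlow _ (hsub i hi x hx s h)⟩⟩⟩

theorem gro_comp (F : FD) {f g : O → O} (hf : gro F.w f ∈ F.M) (hg : gro F.w g ∈ F.M)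
    (hgw : ∀ x < F.w, g x < F.w) : gro F.w (fun x => f (g x)) ∈ F.M := by
  have hM : SOM F.γ F.M F.M := F.g.m1
  obtain ⟨d1, hd1, h1⟩ := hM.bdd _ hf
  obtain ⟨d2, hd2, h2⟩ := hM.bdd _ hg
  have hb : ∀ x < F.w, (Tr.ord x : T) ∈ D (Iio d2) ∧ (Tr.ord (g x) : T) ∈ D (Iio d2) ∧
      (Tr.ord (f (g x)) : T) ∈ D (Iio d1) := fun x hx =>
    ⟨(pr_mem.1 (h2 ⟨x, hx, rfl⟩)).1, (pr_mem.1 (h2 ⟨x, hx, rfl⟩)).2,
      (pr_mem.1 (h1 ⟨g x, hgw x hx, rfl⟩)).2⟩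
  have e1 : D (L := O) (Iio d1) ⊆ D (Iio (max d1 d2)) := D_mono (Iio_subset_Iio (le_max_left _ _))
  have e2 : D (L := O) (Iio d2) ⊆ D (Iio (max d1 d2)) := D_mono (Iio_subset_Iio (le_max_right _ _))
  have e3 : D (L := O) (Iio d1) ⊆ D (Iio F.γ) := D_mono (Iio_subset_Iio hd1.le)
  have e4 : D (L := O) (Iio d2) ⊆ D (Iio F.γ) := D_mono (Iio_subset_Iio hd2.le)
  have hS : SD F.γ F.M F.M (fun e _ => ∃ x ∈ D (Iio F.γ), ∃ y ∈ D (Iio F.γ),
      ∃ z ∈ D (Iio F.γ), Tr.pr x y ∈ gro F.w g ∧ Tr.pr y z ∈ gro F.w f ∧ e = .pr x z) := by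
    apply_rules (maxDepth := 1000) [SD.exT, SD.mem, SD.eq, SD.and, ST.id, ST.fst, ST.snd, ST.pr,
      SV.par]
  refine SOM.of_SD (S := F.M) (max_lt hd1 hd2) ?_ (hS.congr fun e _ _ _ => ?_)
  · rintro _ ⟨x, hx, rfl⟩
    exact pr_mem.2 ⟨e2 (hb x hx).1, e1 (hb x hx).2.2⟩
  · constructor
    · rintro ⟨_, -, _, -, z, -, ⟨x, hx, h⟩, ⟨y, hy, h'⟩, rfl⟩
      rw [Tr.pr.injEq] at h h'
      obtain ⟨rfl, rfl⟩ := h
      obtain ⟨h3, rfl⟩ := h'
      rw [Tr.ord.injEq] at h3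
      subst h3
      exact ⟨x, hx, rfl⟩
    · rintro ⟨x, hx, rfl⟩
      exact ⟨_, e4 (hb x hx).1, _, e4 (hb x hx).2.1, _, e3 (hb x hx).2.2, ⟨x, hx, rfl⟩,
        ⟨g x, hgw x hx, rfl⟩, rfl⟩

open Classical in
theorem gro_label (F : FD) {f : O → O} (hf : gro F.w f ∈ F.M) {a : O} (ha : a < F.γ) :
    gro F.w (fun x => if f x < a then 0 else 1) ∈ F.M := by
  have hM : SOM F.γ F.M F.M := F.g.m1
  obtain ⟨d1, hd1, h1⟩ := hM.bdd _ hf
  have e3 : D (L := O) (Iio d1) ⊆ D (Iio F.γ) := D_mono (Iio_subset_Iio hd1.le)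
  have hw : F.w < F.γ := F.g.wk.trans F.g.kg
  have h1w : (1 : O) < F.w := lt_of_le_of_lt (Ordinal.one_lt_omega0).le F.g.omw
  have h0w : (0 : O) < F.w := zero_lt_one.trans h1w
  have hca : ST F.γ (fun _ => (Tr.ord a : T)) := ST.ordc ha
  have hc0 : ST F.γ (fun _ => (Tr.ord 0 : T)) := ST.ordc (h0w.trans hw)
  have hc1 : ST F.γ (fun _ => (Tr.ord 1 : T)) := ST.ordc (h1w.trans hw)
  have hS : SD F.γ F.M F.M (fun e _ => ∃ x ∈ D (Iio F.γ), ∃ y ∈ D (Iio F.γ),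
      Tr.pr x y ∈ gro F.w f ∧ ((y.llt (.ord a) ∧ e = .pr x (.ord 0)) ∨
        (¬ y.llt (.ord a) ∧ e = .pr x (.ord 1)))) := by
    apply_rules (maxDepth := 1000) [SD.exT, SD.mem, SD.llt, SD.eq, SD.and, SD.or, SD.not, hca, hc0, hc1,
      ST.id, ST.fst, ST.snd, ST.pr, SV.par]
  refine SOM.of_SD (S := F.M) hw ?_ (hS.congr fun e _ _ _ => ?_)
  · rintro _ ⟨x, hx, rfl⟩
    refine pr_mem.2 ⟨ord_mem.2 hx, ord_mem.2 ?_⟩
    simp only [mem_Iio]
    split_ifs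
    · exact h0w
    · exact h1w
  · constructor
    · rintro ⟨_, -, _, -, ⟨x, hx, h⟩, h2⟩
      rw [Tr.pr.injEq] at h
      obtain ⟨rfl, rfl⟩ := h
      rcases h2 with ⟨h3, rfl⟩ | ⟨h3, rfl⟩
      · have h3' : f x < a := h3
        exact ⟨x, hx, by simp only [if_pos h3']⟩
      · have h3' : ¬ f x < a := h3
        exact ⟨x, hx, by simp only [if_neg h3']⟩
    · rintro ⟨x, hx, rfl⟩
      have hb := h1 ⟨x, hx, rfl⟩
      refine ⟨_, e3 (pr_mem.1 hb).1, _, e3 (pr_mem.1 hb).2, ⟨x, hx, rfl⟩, ?_⟩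
      by_cases h3 : f x < a
      · exact Or.inl ⟨h3, by simp only [if_pos h3]⟩
      · exact Or.inr ⟨h3, by simp only [if_neg h3]⟩

/-- The new names are thin. -/
theorem thinN (hspl : G_SPL) (hpro : G_PRO) (hpun : G_PUN) (F : FD) {p' q' : T}
    (hq : q' ∈ F.P F.κ) {j : O} (hj : j ≤ F.κ) {i : O} (hi : i < j)
    (A : EiP F p' q' i) (B : EiP F q' p' i) {r : T} (hr : r ∈ F.P j) :
    Thin F.M F.w (F.P i) (NN F p' q' r i) (ln r i) := by
  classical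
  have hik : i < F.κ := lt_of_lt_of_le hi hj
  have hcq := ((hpun F).2 F.κ q').1 hq
  have hcr := ((hpun F).2 j r).1 hr
  have h1w : (1 : O) < F.w := lt_of_le_of_lt (Ordinal.one_lt_omega0).le F.g.omw
  have h0w : (0 : O) < F.w := zero_lt_one.trans h1w
  have h2w : (2 : O) < F.w := lt_trans (by exact_mod_cast Ordinal.natCast_lt_omega0 2) F.g.omw
  rintro ⟨f, s, hmono, hf, hs, hfs⟩
  have hlnq : ln q' i < F.γ := ((hcq.len i hik hik).trans (F.e.lt i hik)).trans F.g.kg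
  obtain ⟨g, c, hg, hgc, hgM⟩ := (hspl F _ (gro_label F hf hlnq)).1 ⟨2, h2w, fun x hx => by
    split_ifs
    · exact zero_lt_two
    · exact one_lt_two⟩
  have hfg : StrictMonoOn (fun x => f (g x)) (Iio F.w) := fun x hx y hy hxy =>
    hmono (hgc x hx).1 (hgc y hy).1 (hg hx hy hxy)
  have hfgM := gro_comp F hf hgM fun x hx => (hgc x hx).1
  by_cases h0 : f (g 0) < ln q' i
  · have hc : c = 0 := by
      have := (hgc 0 h0w).2
      rw [if_pos h0] at this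
      exact this.symm
    refine hcq.thin i hik hik ⟨_, s, hfg, hfgM, hs, fun x hx => ?_⟩
    have h3 : f (g x) < ln q' i := by
      by_contra h
      have := (hgc x hx).2
      rw [if_neg h, hc] at this
      exact one_ne_zero this
    have h4 := (hfs _ (hgc x hx).1).2
    rw [NN_lo _ _ _ _ h3] at h4
    exact ⟨h3, h4⟩
  · have hc : c = 1 := by
      have := (hgc 0 h0w).2
      rw [if_neg h0] at this
      exact this.symm
    have h3 : ∀ x < F.w, s ∈ TrN F p' i (Ei F p' q' i) (nm r i (f (g x))) := by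
      intro x hx
      have h3 : ln q' i ≤ f (g x) := by
        rw [← not_lt]
        intro h
        have := (hgc x hx).2
        rw [if_pos h, hc] at this
        exact zero_ne_one this
      have h4 := (hfs _ (hgc x hx).1).2
      rw [NN_hi _ _ _ _ h3] at h4
      exact h4
    obtain ⟨hrefl, htr, -⟩ := hpro F
    obtain ⟨s'', h5, h6, v, -, hv, hvp, h7⟩ := (h3 0 h0w).2 s hs (hrefl i s)
    have h8 : F.Le i s'' q' := htr i _ _ _ h7 (A.mem v hv hvp).2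
    refine hcr.thin i hi hik ⟨_, Ei F q' p' i s'', hfg, hfgM, (B.mem s'' h5 h8).1, fun x hx => ?_⟩
    have h9 : f (g x) < ln r i := (hfs _ (hgc x hx).1).1
    refine ⟨h9, ?_⟩
    exact (key hpro F A B (hcr.ro i hi hik _ h9) h5 h8).1
      ((tro hpro F p' i _ _).2.1 s (h3 x hx) s'' h5 h6)

/-- The coordinates of the image. -/
theorem coord (heiu : G_EIU) (heim : G_EIM) (hbld : G_BLD) (hpun : G_PUN) (hpro : G_PRO)
    (hpbd : G_PBD) (hpim : G_PIM) (hspl : G_SPL) (hlns : G_LNS) (hcnc : G_CNC) (F : FD)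
    {p' q' : T} (hp : p' ∈ F.P F.κ) (hq : q' ∈ F.P F.κ) (hl : ∀ i < F.κ, ln p' i = ln q' i)
    {j : O} (hj : j ≤ F.κ) (hA : ∀ i < j, EiP F p' q' i) (hB : ∀ i < j, EiP F q' p' i)
    {r : T} (hr : r ∈ F.P j) :
    Ei F p' q' j r ∈ F.P j ∧ ∀ i < j, ln (Ei F p' q' j r) i = ln r i ∧
      ∀ x < ln r i, nm (Ei F p' q' j r) i x = NN F p' q' r i x := by
  have hcq := ((hpun F).2 F.κ q').1 hq
  have hcr := ((hpun F).2 j r).1 hr
  have hM := inM hpim heim hlns hpbd hpun F hp hq hl hj hA hr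
  rw [EiS_eq] at hM
  obtain ⟨p, hpj, hpc⟩ := hbld F j hj (ln r) (NN F p' q' r) hM (by
    obtain ⟨-, d, hd, h⟩ := (hpbd F).2.2.2.1 j r hr
    exact ⟨d, hd, fun i _ hi => (h i hi).1⟩) hcr.len (fun i hi hik x hx => by
      by_cases h : x < ln q' i
      · rw [NN_lo _ _ _ _ h]
        exact hcq.ro i hik hik x h
      · rw [NN_hi _ _ _ _ (not_lt.1 h)]
        exact tro hpro F p' i _ _) (fun i hi hik =>
      thinN hspl hpro hpun F hq hj hi (hA i hi) (hB i hi) hr)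
  have hjk : ∀ i < j, i < F.κ := fun i hi => lt_of_lt_of_le hi hj
  have hdec : dec p = EiS F p' q' (Ei F p' q') j r := by
    rw [EiS_eq, (hpbd F).2.2.2.2.2.2.2 j p hpj]
    ext z
    constructor
    · rintro ⟨i, hi, hik, x, hx, h⟩
      obtain ⟨h1, h2⟩ := hpc i hi hik
      rw [h1] at hx
      rw [h2 x hx] at h
      exact ⟨i, hi, hik, x, hx, h⟩
    · rintro ⟨i, hi, hik, x, hx, h⟩
      obtain ⟨h1, h2⟩ := hpc i hi hik
      rw [← h2 x hx] at h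
      rw [← h1] at hx
      exact ⟨i, hi, hik, x, hx, h⟩
  have hpp : Ei F p' q' j r = p := by
    rw [heiu, ← hdec]
    exact hcnc.2.1 p (((hpun F).2 j p).1 hpj).canon
  rw [hpp]
  exact ⟨hpj, fun i hi => hpc i hi (hjk i hi)⟩

/-- The first four properties, in one direction. -/
theorem half (heiu : G_EIU) (heim : G_EIM) (hbld : G_BLD) (heqv : G_EQV) (hpun : G_PUN)
    (hpro : G_PRO) (hpbd : G_PBD) (hpim : G_PIM) (hres : G_RES) (hspl : G_SPL) (hlns : G_LNS)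
    (hcnc : G_CNC) (F : FD)
    {p' q' : T} (hp : p' ∈ F.P F.κ) (hq : q' ∈ F.P F.κ) (hl : ∀ i < F.κ, ln p' i = ln q' i)
    {j : O} (hj : j ≤ F.κ) (hA : ∀ i < j, EiP F p' q' i) (hB : ∀ i < j, EiP F q' p' i) :
    (∀ r ∈ F.P j, F.Le j r p' → Ei F p' q' j r ∈ F.P j ∧ F.Le j (Ei F p' q' j r) q') ∧
    (∀ r ∈ F.P j, F.Le j r p' → ∀ i ≤ j, i ≤ F.κ →
      Ei F p' q' i (res r i) = res (Ei F p' q' j r) i) ∧
    (∀ r ∈ F.P j, ∀ s ∈ F.P j, F.Le j s r → F.Le j r p' →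
      F.Le j (Ei F p' q' j s) (Ei F p' q' j r)) := by
  obtain ⟨-, htr, hdown, -, hln⟩ := hpro F
  have hPm := (hpbd F).2.2.1
  obtain ⟨hres1, -, -⟩ := hres F
  have C : ∀ {i : O} (_ : i ≤ j) {r : T} (_ : r ∈ F.P i), Ei F p' q' i r ∈ F.P i ∧ ∀ k < i,
      ln (Ei F p' q' i r) k = ln r k ∧
      ∀ x < ln r k, nm (Ei F p' q' i r) k x = NN F p' q' r k x := fun hi _ hr =>
    coord heiu heim hbld hpun hpro hpbd hpim hspl hlns hcnc F hp hq hl (hi.trans hj)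
      (fun k hk => hA k (lt_of_lt_of_le hk hi)) (fun k hk => hB k (lt_of_lt_of_le hk hi)) hr
  have hmem : ∀ r ∈ F.P j, F.Le j r p' → Ei F p' q' j r ∈ F.P j ∧ F.Le j (Ei F p' q' j r) q' := by
    intro r hr hrp
    obtain ⟨h1, h2⟩ := C le_rfl hr
    refine ⟨h1, ((hpun F).1 j _ _).2 fun i hi => ?_⟩
    have h3 : ln q' i ≤ ln r i := by
      rw [← hl i (lt_of_lt_of_le hi hj)]
      exact hln j _ _ hrp i hi
    refine ⟨by rw [(h2 i hi).1]; exact h3, fun x hx u hu _ => ?_⟩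
    rw [(h2 i hi).2 x (lt_of_lt_of_le hx h3), NN_lo _ _ _ _ hx]
  have hrs : ∀ r ∈ F.P j, F.Le j r p' → ∀ i ≤ j, i ≤ F.κ →
      Ei F p' q' i (res r i) = res (Ei F p' q' j r) i := by
    intro r hr hrp i hi hik
    have hrk := hPm j F.κ hj hr
    obtain ⟨ha1, ha2, -⟩ := hres1 r hrk i hik
    obtain ⟨h1, h2⟩ := C le_rfl hr
    obtain ⟨hb1, hb2, -⟩ := hres1 _ (hPm j F.κ hj h1) i hik
    obtain ⟨h3, h4⟩ := C hi ha1
    refine (heqv F).2.1 i hik _ h3 _ hb1 fun k hk => ?_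
    have hkj := lt_of_lt_of_le hk hi
    have e1 : ln (Ei F p' q' i (res r i)) k = ln r k := by rw [(h4 k hk).1, (ha2 k hk).1]
    have e2 : ln (res (Ei F p' q' j r) i) k = ln r k := by rw [(hb2 k hk).1, (h2 k hkj).1]
    refine ⟨by rw [e1, e2], fun x hx => ?_⟩
    rw [e1] at hx
    rw [(h4 k hk).2 x (by rw [(ha2 k hk).1]; exact hx),
      (hb2 k hk).2 x (by rw [e2]; exact hx), (h2 k hkj).2 x hx]
    by_cases hxq : x < ln q' k
    · rw [NN_lo _ _ _ _ hxq, NN_lo _ _ _ _ hxq]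
    · rw [NN_hi _ _ _ _ (not_lt.1 hxq), NN_hi _ _ _ _ (not_lt.1 hxq),
        (ha2 k hk).2 x (by rw [(ha2 k hk).1]; exact hx)]
  refine ⟨hmem, hrs, ?_⟩
  intro r hr s hs hsr hrp
  have hsp : F.Le j s p' := htr j _ _ _ hsr hrp
  have hsr' := ((hpun F).1 j _ _).1 hsr
  refine ((hpun F).1 j _ _).2 fun i hi => ?_
  have hik : i < F.κ := lt_of_lt_of_le hi hj
  obtain ⟨h1, h2⟩ := C le_rfl hr
  obtain ⟨h3, h4⟩ := C le_rfl hs
  obtain ⟨hli, hni⟩ := hsr' i hi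
  refine ⟨by rw [(h2 i hi).1, (h4 i hi).1]; exact hli, fun x hx u hu hus => ?_⟩
  rw [(h2 i hi).1] at hx
  rw [(h2 i hi).2 x hx, (h4 i hi).2 x (lt_of_lt_of_le hx hli)]
  by_cases hxq : x < ln q' i
  · rw [NN_lo _ _ _ _ hxq, NN_lo _ _ _ _ hxq]
  · rw [NN_hi _ _ _ _ (not_lt.1 hxq), NN_hi _ _ _ _ (not_lt.1 hxq)]
    have A := hA i hi
    have B := hB i hi
    have hcr := ((hpun F).2 j r).1 hr
    have hcs := ((hpun F).2 j s).1 hs
    have huq : F.Le i u q' := htr i _ _ _ hus (hdown i j _ _ hi.le (hmem s hs hsp).2)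
    rw [key hpro F A B (hcs.ro i hi hik x (lt_of_lt_of_le hx hli)) hu huq,
      key hpro F A B (hcr.ro i hi hik x hx) hu huq]
    obtain ⟨hb1, -, -, -, -, -, hb2, -⟩ := hres1 _ (hPm j F.κ hj h3) i hik.le
    obtain ⟨hc1, -, -, -, -, hc2, -, -⟩ := hres1 s (hPm j F.κ hj hs) i hik.le
    rw [← hrs s hs hsp i hi.le hik.le] at hb2
    have h5 : F.Le i u (Ei F p' q' i (res s i)) := htr i _ _ _ hus hb2
    have h6 : F.Le i (res s i) p' := htr i _ _ _ hc2 (hdown i j _ _ hi.le hsp)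
    have h7 := A.mem _ hc1 h6
    exact hni x hx _ (B.mem u hu huq).1 (htr i _ _ _ (B.mono _ h7.1 u hu h5 h7.2)
      (htr i _ _ _ (A.inv _ hc1 h6).1 hc2))

theorem thm (heiu : G_EIU) (heim : G_EIM) (hbld : G_BLD) (heqv : G_EQV) (hpun : G_PUN)
    (hpro : G_PRO) (hpbd : G_PBD) (hpim : G_PIM) (hres : G_RES) (hspl : G_SPL) (hlns : G_LNS)
    (hcnc : G_CNC) : G_EIH := by
  intro F p' hp q' hq hl j hj hAB
  have hl' : ∀ i < F.κ, ln q' i = ln p' i := fun i hi => (hl i hi).symm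
  have hA : ∀ i < j, EiP F p' q' i := fun i hi => (hAB i hi).1
  have hB : ∀ i < j, EiP F q' p' i := fun i hi => (hAB i hi).2
  obtain ⟨hm1, hr1, ho1⟩ := half heiu heim hbld heqv hpun hpro hpbd hpim hres hspl hlns hcnc F
    hp hq hl hj hA hB
  obtain ⟨hm2, hr2, ho2⟩ := half heiu heim hbld heqv hpun hpro hpbd hpim hres hspl hlns hcnc F
    hq hp hl' hj hB hA
  have C1 := @coord heiu heim hbld hpun hpro hpbd hpim hspl hlns hcnc F p' q' hp hq hl j hj hA hB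
  have C2 := @coord heiu heim hbld hpun hpro hpbd hpim hspl hlns hcnc F q' p' hq hp hl' j hj hB hA
  obtain ⟨hrefl, htr, hdown, -, hln⟩ := hpro F
  have hPm := (hpbd F).2.2.1
  obtain ⟨hres1, -, -⟩ := hres F
  refine ⟨hm1, fun r hr _ i hi _ => ((C1 hr).2 i hi).1, ho1, ?_, hr1⟩
  intro r hr hrp
  obtain ⟨ht, htq⟩ := hm1 r hr hrp
  obtain ⟨-, hc1⟩ := C1 hr
  obtain ⟨hu, hc2⟩ := C2 ht
  have hcr := ((hpun F).2 j r).1 hr
  have hct := ((hpun F).2 j _).1 ht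
  have hrp' := ((hpun F).1 j _ _).1 hrp
  have hup : F.Le j (Ei F q' p' j (Ei F p' q' j r)) p' := (hm2 _ ht htq).2
  -- the coordinates beyond `p'`
  have hhi : ∀ i < j, ∀ x < ln r i, ln p' i ≤ x → ∀ u ∈ F.P i, F.Le i u p' →
      (u ∈ nm (Ei F q' p' j (Ei F p' q' j r)) i x ↔ u ∈ nm r i x) := by
    intro i hi x hx hxp u hu hup
    have hik : i < F.κ := lt_of_lt_of_le hi hj
    have hxt : x < ln (Ei F p' q' j r) i := by rw [(hc1 i hi).1]; exact hx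
    have hxq : ln q' i ≤ x := by rw [← hl i hik]; exact hxp
    rw [(hc2 i hi).2 x hxt, NN_hi _ _ _ _ hxp]
    have A := hA i hi
    have B := hB i hi
    rw [key hpro F B A (hct.ro i hi hik x hxt) hu hup, (hc1 i hi).2 x hx, NN_hi _ _ _ _ hxq]
    obtain ⟨h1, h2⟩ := A.mem u hu hup
    have hro := hcr.ro i hi hik x hx
    rw [key hpro F A B hro h1 h2]
    obtain ⟨h3, h4⟩ := A.inv u hu hup
    exact ⟨fun h => hro.2.1 _ h _ hu h4, fun h => hro.2.1 _ h _ (B.mem _ h1 h2).1 h3⟩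
  constructor
  · refine ((hpun F).1 j _ _).2 fun i hi => ?_
    have hik : i < F.κ := lt_of_lt_of_le hi hj
    refine ⟨by rw [(hc2 i hi).1, (hc1 i hi).1], fun x hx v hv hvu => ?_⟩
    by_cases hxp : x < ln p' i
    · rw [(hc2 i hi).2 x (by rw [(hc1 i hi).1]; exact hx), NN_lo _ _ _ _ hxp]
      have A := hA i hi
      obtain ⟨hb1, -, -, -, -, -, hb2, -⟩ := hres1 _ (hPm j F.κ hj hu) i hik.le
      obtain ⟨hd1, -, -, -, -, hd2, -, -⟩ := hres1 r (hPm j F.κ hj hr) i hik.le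
      rw [← hr2 _ ht htq i hi.le hik.le, ← hr1 r hr hrp i hi.le hik.le] at hb2
      have h6 : F.Le i (res r i) p' := htr i _ _ _ hd2 (hdown i j _ _ hi.le hrp)
      have h7 : F.Le i v r := htr i _ _ _ hvu (htr i _ _ _ hb2 (htr i _ _ _ (A.inv _ hd1 h6).1 hd2))
      exact ((hrp' i hi).2 x hxp v hv h7).symm
    · exact hhi i hi x hx (not_lt.1 hxp) v hv (htr i _ _ _ hvu (hdown i j _ _ hi.le hup))
  · refine ((hpun F).1 j _ _).2 fun i hi => ?_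
    refine ⟨by rw [(hc2 i hi).1, (hc1 i hi).1], fun x hx v hv hvr => ?_⟩
    rw [(hc2 i hi).1, (hc1 i hi).1] at hx
    by_cases hxp : x < ln p' i
    · rw [(hc2 i hi).2 x (by rw [(hc1 i hi).1]; exact hx), NN_lo _ _ _ _ hxp]
      exact (hrp' i hi).2 x hxp v hv hvr
    · exact (hhi i hi x hx (not_lt.1 hxp) v hv (htr i _ _ _ hvr (hdown i j _ _ hi.le hrp))).symm

end Pool.Agent.Helper17.OD.PkEIH
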